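import Pool.Agent.Helper303.AcS
import Pool.Agent.Helper303.Ac4

/-!
# MP_128c63: boundary limits along arcs at distinguished homomorphisms (Q1, affirmative answer)

`V` is a bounded open set, `φ` a weak-star continuous character of `H^∞(V)` in the fibre over a
boundary point `ζ`.  If `f ∈ H^∞(V)` has the limit `L` along an arc in `V` terminating at `ζ`, then
`L = φ f`.
-/

open MeasureTheory Set Metric Filter Topology

namespace Pool.Agent.Results.MP_128c63_an.ArcLimits
/-- `H^∞(V)` : the algebra of bounded functions on `V` that are holomorphic on `V` (i.e. restrictions to `V` of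
functions that are complex differentiable on `V`). -/
def HInf (V : Set ℂ) : Subalgebra ℂ (V → ℂ) where
  carrier := {f | (∃ F : ℂ → ℂ, DifferentiableOn ℂ F V ∧ ∀ z : V, F z = f z) ∧ ∃ M : ℝ, ∀ z, ‖f z‖ ≤ M}
  mul_mem' := by
    rintro f g ⟨⟨F, hF, hFf⟩, M, hM⟩ ⟨⟨G, hG, hGg⟩, M', hM'⟩
    refine ⟨⟨F * G, hF.mul hG, fun z => by simp [hFf, hGg]⟩, M * M', fun z => ?_⟩
    rw [Pi.mul_apply, norm_mul]
    exact mul_le_mul (hM z) (hM' z) (norm_nonneg _) ((norm_nonneg _).trans (hM z))
  add_mem' := by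
    rintro f g ⟨⟨F, hF, hFf⟩, M, hM⟩ ⟨⟨G, hG, hGg⟩, M', hM'⟩
    refine ⟨⟨F + G, hF.add hG, fun z => by simp [hFf, hGg]⟩, M + M', fun z => ?_⟩
    exact (norm_add_le _ _).trans (add_le_add (hM z) (hM' z))
  algebraMap_mem' := by
    intro r
    exact ⟨⟨fun _ => r, differentiableOn_const r, fun z => rfl⟩, ‖r‖, fun z => le_rfl⟩

/-- the coordinate function, an element of `H^∞(V)` for bounded `V` -/
def coord (V : Set ℂ) (hV : Bornology.IsBounded V) : HInf V :=
  ⟨fun z => (z : ℂ), ⟨fun z => z, differentiableOn_id, fun _ => rfl⟩, by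
    obtain ⟨M, hM⟩ := hV.exists_norm_le
    exact ⟨M, fun z => hM z z.2⟩⟩

/-- area measure `dx dy` on `V` -/
noncomputable def area (V : Set ℂ) : Measure V := Measure.comap (Subtype.val : V → ℂ) volume

/-- the pairing of `f ∈ H^∞(V) ⊂ L^∞(V)` with `g ∈ L¹(V, dx dy)` -/
noncomputable def pair (V : Set ℂ) (f : HInf V) (g : Lp ℂ 1 (area V)) : ℂ :=
  ∫ z : V, f.1 z * g z ∂(area V)

/-- the weak-star topology of `H^∞(V) ⊂ L^∞(V, dx dy) = L¹(V, dx dy)^*` -/
@[reducible] noncomputable def weakStar (V : Set ℂ) : TopologicalSpace (HInf V) :=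
  ⨅ g : Lp ℂ 1 (area V), TopologicalSpace.induced (fun f => pair V f g) inferInstance

/-- a weak-star continuous character is given by an integrable density -/
theorem exists_density (V : Set ℂ) (hVo : IsOpen V) (φ : HInf V →ₐ[ℂ] ℂ)
    (hφ : @Continuous _ _ (weakStar V) inferInstance φ) :
    ∃ g : ℂ → ℂ, Integrable g ∧ (∀ z ∉ V, g z = 0) ∧
      ∀ (f : HInf V) (F : ℂ → ℂ), (∀ z : V, F z = f.1 z) → φ f = ∫ z, F z * g z := by
  classical
  have hVm : MeasurableSet V := hVo.measurableSet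
  have hfm : ∀ f : HInf V, Continuous f.1 := by
    intro f
    obtain ⟨⟨F, hF, hFf⟩, -⟩ := f.2
    have h : (f.1 : V → ℂ) = V.domRestrict F := by
      ext z
      exact (hFf z).symm
    rw [h]
    exact hF.continuousOn.domRestrict
  have hint : ∀ (f : HInf V) (g : Lp ℂ 1 (area V)), Integrable (fun z => f.1 z * g z) (area V) := by
    intro f g
    obtain ⟨-, M, hM⟩ := f.2
    exact (L1.integrable_coeFn g).bdd_mul (hfm f).aestronglyMeasurable (Filter.Eventually.of_forall hM)
  let Λ : Lp ℂ 1 (area V) → (HInf V →ₗ[ℂ] ℂ) := fun g =>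
    { toFun := fun f => pair V f g
      map_add' := by
        intro f f'
        simp only [pair]
        rw [← integral_add (hint f g) (hint f' g)]
        refine integral_congr_ae (Filter.Eventually.of_forall fun z => ?_)
        show (f.1 z + f'.1 z) * g z = _
        simp only
        ring
      map_smul' := by
        intro c f
        simp only [pair, RingHom.id_apply, smul_eq_mul]
        rw [← integral_const_mul]
        refine integral_congr_ae (Filter.Eventually.of_forall fun z => ?_)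
        show (c * f.1 z) * g z = _
        simp only
        ring }
  have hΛadd : ∀ g g' : Lp ℂ 1 (area V), Λ (g + g') = Λ g + Λ g' := by
    intro g g'
    ext f
    show pair V f (g + g') = pair V f g + pair V f g'
    simp only [pair]
    rw [← integral_add (hint f g) (hint f g')]
    refine integral_congr_ae ?_
    filter_upwards [Lp.coeFn_add g g'] with z hz
    rw [hz, Pi.add_apply]
    ring
  have hΛsmul : ∀ (c : ℂ) (g : Lp ℂ 1 (area V)), Λ (c • g) = c • Λ g := by
    intro c g
    ext f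
    show pair V f (c • g) = c • pair V f g
    simp only [pair, smul_eq_mul]
    rw [← integral_const_mul]
    refine integral_congr_ae ?_
    filter_upwards [Lp.coeFn_smul c g] with z hz
    rw [hz, Pi.smul_apply, smul_eq_mul]
    ring
  have h1 : φ.toLinearMap ∈ Submodule.span ℂ (Set.range Λ) := by
    rw [LinearMap.mem_span_iff_continuous]
    exact hφ
  have h2 : ∀ ψ ∈ Submodule.span ℂ (Set.range Λ), ∃ g, ψ = Λ g := by
    intro ψ hψ
    induction hψ using Submodule.span_induction with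
    | mem x h => obtain ⟨g, rfl⟩ := h; exact ⟨g, rfl⟩
    | zero =>
      refine ⟨0, ?_⟩
      have := hΛsmul 0 0
      rw [zero_smul, zero_smul] at this
      exact this.symm
    | add x y _ _ hx hy =>
      obtain ⟨g, rfl⟩ := hx
      obtain ⟨g', rfl⟩ := hy
      exact ⟨g + g', (hΛadd g g').symm⟩
    | smul a x _ hx =>
      obtain ⟨g, rfl⟩ := hx
      exact ⟨a • g, (hΛsmul a g).symm⟩
  obtain ⟨g0, hg0⟩ := h2 _ h1
  have hemb : MeasurableEmbedding (Subtype.val : V → ℂ) := MeasurableEmbedding.subtype_coe hVm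
  set g : ℂ → ℂ := fun z => if h : z ∈ V then g0 ⟨z, h⟩ else 0 with hg
  have hgval : ∀ z : V, g z = g0 z := by
    intro z
    simp only [hg]
    rw [dif_pos z.2]
  have hmap : Measure.map (Subtype.val : V → ℂ) (area V) = volume.restrict V := by
    have := map_comap_subtype_coe hVm (volume : Measure ℂ)
    exact this
  have hgoff : ∀ z ∉ V, g z = 0 := by
    intro z hz
    simp only [hg]
    rw [dif_neg hz]
  have hgon : IntegrableOn g V := by
    rw [IntegrableOn, ← hmap, hemb.integrable_map_iff]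
    refine (L1.integrable_coeFn g0).congr (Filter.Eventually.of_forall fun z => ?_)
    exact (hgval z).symm
  refine ⟨g, ?_, hgoff, ?_⟩
  · have h3 : V.indicator g = g := by
      ext z
      by_cases hz : z ∈ V
      · rw [indicator_of_mem hz]
      · rw [indicator_of_notMem hz, hgoff z hz]
    rw [← h3, integrable_indicator_iff hVm]
    exact hgon
  · intro f F hF
    have h4 : φ f = pair V f g0 := by
      have : φ.toLinearMap f = Λ g0 f := by rw [hg0]
      exact this
    have h5 : ∫ z, F z * g z = ∫ z in V, F z * g z := by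
      rw [setIntegral_eq_integral_of_forall_compl_eq_zero]
      intro z hz
      rw [hgoff z hz, mul_zero]
    rw [h4, h5, ← hmap, hemb.integral_map]
    simp only [pair]
    refine integral_congr_ae (Filter.Eventually.of_forall fun z => ?_)
    simp only
    rw [hgval z, hF z]


/-- the resolvent identity at a point of `V` -/
theorem resolvent (V : Set ℂ) (hVo : IsOpen V) (hVb : Bornology.IsBounded V) (ζ : ℂ)
    (φ : HInf V →ₐ[ℂ] ℂ) (hζ : φ (coord V hVb) = ζ) (g : ℂ → ℂ) (hg : Integrable g)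
    (hg0 : ∀ z ∉ V, g z = 0)
    (hφ : ∀ (f : HInf V) (F : ℂ → ℂ), (∀ z : V, F z = f.1 z) → φ f = ∫ z, F z * g z)
    (f : HInf V) (F : ℂ → ℂ) (hF : DifferentiableOn ℂ F V) (hFf : ∀ z : V, F z = f.1 z)
    (M : ℝ) (hM : ∀ z ∈ V, ‖F z‖ ≤ M) (p : ℂ) (hp : p ∈ V)
    (hint : Integrable (fun z => ‖g z‖ / ‖z - p‖)) :
    φ f - F p = (ζ - p) * ((∫ z, F z * g z / (z - p)) - F p * ∫ z, g z / (z - p)) := by
  classical
  have hVm : MeasurableSet V := hVo.measurableSet
  have hM0 : 0 ≤ M := (norm_nonneg _).trans (hM p hp)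
  -- the difference quotient
  set q : ℂ → ℂ := dslope F p with hq
  have hqd : DifferentiableOn ℂ q V :=
    (Complex.differentiableOn_dslope (hVo.mem_nhds hp)).2 hF
  obtain ⟨δ, hδ, hball⟩ := Metric.isOpen_iff.1 hVo p hp
  have hcb : closedBall p (δ / 2) ⊆ V :=
    (closedBall_subset_ball (by linarith)).trans hball
  obtain ⟨B, hB⟩ := (isCompact_closedBall p (δ / 2)).exists_bound_of_continuousOn
    (hqd.continuousOn.mono hcb)
  have hqb : ∀ z ∈ V, ‖q z‖ ≤ max B (2 * M / (δ / 2)) := by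
    intro z hz
    by_cases hzp : z ∈ closedBall p (δ / 2)
    · exact (hB z hzp).trans (le_max_left _ _)
    · have hdist : δ / 2 < ‖z - p‖ := by
        rw [mem_closedBall, dist_eq_norm, not_le] at hzp
        exact hzp
      have hne : z ≠ p := by
        rintro rfl
        rw [sub_self, norm_zero] at hdist
        linarith
      refine le_trans ?_ (le_max_right _ _)
      rw [hq, dslope_of_ne _ hne, slope_def_field, norm_div]
      have h1 : ‖F z - F p‖ ≤ 2 * M := by
        calc ‖F z - F p‖ ≤ ‖F z‖ + ‖F p‖ := norm_sub_le _ _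
          _ ≤ 2 * M := by linarith [hM z hz, hM p hp]
      gcongr
  set Q : HInf V := ⟨fun z => q z, ⟨q, hqd, fun _ => rfl⟩, ⟨_, fun z => hqb z z.2⟩⟩ with hQ
  have hid : (coord V hVb - algebraMap ℂ (HInf V) p) * Q = f - algebraMap ℂ (HInf V) (F p) := by
    apply Subtype.ext
    funext z
    show ((z : ℂ) - p) * q z = f.1 z - F p
    rw [← hFf z]
    have := sub_smul_dslope F p (z : ℂ)
    rw [smul_eq_mul] at this
    exact this
  have hid2 : (ζ - p) * φ Q = φ f - F p := by
    have h := congrArg φ hid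
    rw [map_mul, map_sub, map_sub, AlgHom.commutes, AlgHom.commutes, hζ] at h
    exact h
  have hφQ : φ Q = ∫ z, q z * g z := hφ Q q (fun z => rfl)
  -- measurability
  have hgq : ∀ z ≠ p, q z * g z = F z * g z / (z - p) - F p * (g z / (z - p)) := by
    intro z hz
    have hz' : z - p ≠ 0 := sub_ne_zero.2 hz
    rw [hq, dslope_of_ne _ hz, slope_def_field]
    field_simp
  have hae : ∀ᵐ z : ℂ, z ≠ p := by
    have : ({p} : Set ℂ)ᶜ ∈ ae (volume : Measure ℂ) := by
      rw [mem_ae_iff, compl_compl]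
      exact measure_singleton p
    filter_upwards [this] with z hz
    exact hz
  have hmeas1 : AEStronglyMeasurable (fun z => g z / (z - p)) volume := by
    simp only [div_eq_mul_inv]
    exact hg.aestronglyMeasurable.mul (measurable_id.sub_const p).inv.aestronglyMeasurable
  have hI1 : Integrable (fun z => g z / (z - p)) := by
    refine hint.mono' hmeas1 (Filter.Eventually.of_forall fun z => ?_)
    rw [norm_div]
  have hI2 : Integrable (fun z => F z * g z / (z - p)) := by
    have h3 : (fun z => F z * g z / (z - p)) = fun z => V.indicator F z * (g z / (z - p)) := by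
      funext z
      by_cases hz : z ∈ V
      · rw [indicator_of_mem hz, mul_div_assoc]
      · rw [indicator_of_notMem hz, hg0 z hz]; simp
    rw [h3]
    refine hI1.bdd_mul (c := M) ?_ (Filter.Eventually.of_forall fun z => ?_)
    · rw [aestronglyMeasurable_indicator_iff hVm]
      exact hF.continuousOn.aestronglyMeasurable hVm
    · by_cases hz : z ∈ V
      · rw [indicator_of_mem hz]; exact hM z hz
      · rw [indicator_of_notMem hz, norm_zero]; exact hM0
  rw [← hid2, hφQ]
  congr 1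
  rw [← integral_const_mul, ← integral_sub hI2 (hI1.const_mul _)]
  refine integral_congr_ae ?_
  filter_upwards [hae] with z hz
  exact hgq z hz

/-- **Boundary limits along arcs at distinguished homomorphisms.** -/
theorem result : ∀ (V : Set ℂ) (_ : IsOpen V) (hVb : Bornology.IsBounded V) (ζ : ℂ)
    (_ : ζ ∈ frontier V) (φ : HInf V →ₐ[ℂ] ℂ) (_ : φ (coord V hVb) = ζ)
    (_ : @Continuous _ _ (weakStar V) inferInstance φ)
    (γ : Ico (0 : ℝ) 1 → V) (_ : Continuous γ)
    (_ : Tendsto (fun t => (γ t : ℂ)) (comap Subtype.val (𝓝 (1 : ℝ))) (𝓝 ζ))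
    (f : HInf V) (L : ℂ)
    (_ : Tendsto (fun t => f.1 (γ t)) (comap Subtype.val (𝓝 (1 : ℝ))) (𝓝 L)),
    L = φ f := by
  intro V hVo hVb ζ hζ φ hφζ hφc γ hγ hγζ f L hL
  classical
  by_contra hne
  obtain ⟨g, hg, hg0, hφ⟩ := exists_density V hVo φ hφc
  obtain ⟨⟨F, hF, hFf⟩, M, hM⟩ := f.2
  have hζV : ζ ∉ V := by
    intro h
    rw [hVo.frontier_eq] at hζ
    exact hζ.2 h
  set w : ℂ := φ f with hw
  set F0 : ℂ → ℂ := fun z => F z - w with hF0
  set f0 : HInf V := f - algebraMap ℂ (HInf V) w with hf0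
  have hφf0 : φ f0 = 0 := by
    rw [hf0, map_sub, AlgHom.commutes]
    simp [hw]
  have hf0v : ∀ z : V, F0 z = f0.1 z := by
    intro z
    have : f0.1 z = f.1 z - w := rfl
    rw [this, ← hFf z]
  have hF0d : DifferentiableOn ℂ F0 V := hF.sub_const w
  set M0 : ℝ := |M| + ‖w‖ + 1 with hM0
  have hM0pos : 0 < M0 := by positivity
  have hF0b : ∀ z ∈ V, ‖F0 z‖ ≤ M0 := by
    intro z hz
    have h1 : ‖F z‖ ≤ M := by
      have := hM ⟨z, hz⟩
      rwa [← hFf ⟨z, hz⟩] at this
    calc ‖F z - w‖ ≤ ‖F z‖ + ‖w‖ := norm_sub_le _ _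
      _ ≤ M0 := by
        have := le_abs_self M
        rw [hM0]; linarith
  set η : ℝ := ‖L - w‖ / 2 with hη
  have hηpos : 0 < η := by
    have : 0 < ‖L - w‖ := norm_pos_iff.2 (sub_ne_zero.2 hne)
    positivity
  -- the path as a function on ℝ
  set Γ : ℝ → ℂ := fun t => if h : t ∈ Ico (0 : ℝ) 1 then (γ ⟨t, h⟩ : ℂ) else ζ with hΓ
  have hΓval : ∀ t : Ico (0 : ℝ) 1, Γ t = γ t := fun t => by
    simp only [hΓ]
    rw [dif_pos t.2]
  have hΓc : ContinuousOn Γ (Ico 0 1) := by
    rw [continuousOn_iff_continuous_domRestrict]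
    have : (Ico (0 : ℝ) 1).domRestrict Γ = fun t => (γ t : ℂ) := by
      ext t; exact hΓval t
    rw [this]
    exact continuous_subtype_val.comp hγ
  have hmap : Filter.map Subtype.val (comap (Subtype.val : Ico (0 : ℝ) 1 → ℝ) (𝓝 (1 : ℝ))) =
      𝓝[<] (1 : ℝ) := by
    rw [Filter.map_comap, Subtype.range_coe, ← nhdsWithin_Ico_eq_nhdsLT (zero_lt_one (α := ℝ))]
    rfl
  have hΓlim : Tendsto Γ (𝓝[<] 1) (𝓝 ζ) := by
    rw [← hmap, tendsto_map'_iff]
    refine hγζ.congr fun t => ?_
    exact (hΓval t).symm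
  have hFΓ : Tendsto (fun t => F (Γ t)) (𝓝[<] 1) (𝓝 L) := by
    rw [← hmap, tendsto_map'_iff]
    refine hL.congr fun t => ?_
    show f.1 (γ t) = F (Γ t)
    rw [hΓval t, hFf]
  have hev : ∀ᶠ t in 𝓝[<] (1 : ℝ), η < ‖F0 (Γ t)‖ := by
    have h1 := (Metric.tendsto_nhds.1 hFΓ) η hηpos
    refine h1.mono fun t ht => ?_
    rw [dist_eq_norm] at ht
    have h2 : ‖L - w‖ ≤ ‖F (Γ t) - w‖ + ‖F (Γ t) - L‖ := by
      calc ‖L - w‖ = ‖(F (Γ t) - w) - (F (Γ t) - L)‖ := by ring_nf
        _ ≤ _ := norm_sub_le _ _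
    simp only [hF0]
    linarith
  obtain ⟨l, hl1, hl2⟩ := (mem_nhdsLT_iff_exists_Ioo_subset).1 hev
  have hl1' : l < 1 := hl1
  set t0 : ℝ := (max l 0 + 1) / 2 with ht0
  have hmx : max l 0 < 1 := max_lt hl1' zero_lt_one
  have ht0lt : t0 < 1 := by rw [ht0]; linarith
  have ht0l : l < t0 := by
    have := le_max_left l 0
    rw [ht0]; linarith
  have ht00 : 0 ≤ t0 := by
    have := le_max_right l 0
    rw [ht0]; linarith
  refine AC.core AC.star2' V hVo g hg hg0 F0 hF0d.continuousOn M0 hM0pos hF0b ζ hζV η hηpos ?_ Γ t0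
    ht0lt (hΓc.mono (Ico_subset_Ico ht00 le_rfl)) ?_ hΓlim
  · intro p hp hint
    have := resolvent V hVo hVb ζ φ hφζ g hg hg0 hφ f0 F0 hF0d hf0v M0 hF0b p hp hint
    rw [hφf0, zero_sub] at this
    exact this
  · intro t ht
    have ht' : t ∈ Ico (0 : ℝ) 1 := ⟨ht00.trans ht.1, ht.2⟩
    refine ⟨?_, ?_⟩
    · have : Γ t = γ ⟨t, ht'⟩ := hΓval ⟨t, ht'⟩
      rw [this]
      exact (γ ⟨t, ht'⟩).2
    · exact hl2 ⟨ht0l.trans_le ht.1, ht.2⟩

end Pool.Agent.Results.MP_128c63_an.ArcLimits
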